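import Pool.Agent.W747.FT.Barta

/-!
# The eigenfunction of the equilateral triangle and integrals over the truncated triangle
-/

set_option autoImplicit false

open MeasureTheory Set Filter Topology Real

namespace Pool.Agent.W747.FT

/-- linear form -/
noncomputable def lf (a b : ℝ) : E2 →L[ℝ] ℝ :=
  a • (EuclideanSpace.proj (𝕜 := ℝ) (0 : Fin 2)) + b • (EuclideanSpace.proj (𝕜 := ℝ) (1 : Fin 2))

lemma lf_apply (a b : ℝ) (x : E2) : lf a b x = a * x 0 + b * x 1 := by
  simp [lf]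

lemma lf_e0 (a b : ℝ) : lf a b (e 0) = a := by simp [lf_apply, e]
lemma lf_e1 (a b : ℝ) : lf a b (e 1) = b := by simp [lf_apply, e]

lemma hasFDerivAt_lin (a b c : ℝ) (x : E2) :
    HasFDerivAt (fun y : E2 => lf a b y + c) (lf a b) x :=
  (lf a b).hasFDerivAt.add_const c

lemma hS (a b c : ℝ) (x : E2) :
    HasFDerivAt (fun y : E2 => sin (lf a b y + c)) (cos (lf a b x + c) • lf a b) x :=
  (hasFDerivAt_lin a b c x).sin

lemma hC (a b c : ℝ) (x : E2) :
    HasFDerivAt (fun y : E2 => cos (lf a b y + c)) (-sin (lf a b x + c) • lf a b) x :=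
  (hasFDerivAt_lin a b c x).cos

/-- the first eigenfunction of the equilateral triangle of height 3 -/
noncomputable def v (x : E2) : ℝ :=
  sin (lf (-(2*π/3)) 0 x + 2*π) + sin (lf (π/3) (-(π*√3/3)) x + 0) + sin (lf (π/3) (π*√3/3) x + 0)

lemma contDiff_S (a b c : ℝ) : ContDiff ℝ 2 (fun y : E2 => sin (lf a b y + c)) :=
  Real.contDiff_sin.comp ((lf a b).contDiff.add contDiff_const)

lemma contDiff_v : ContDiff ℝ 2 v :=
  ((contDiff_S _ _ _).add (contDiff_S _ _ _)).add (contDiff_S _ _ _)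

lemma fderiv_v (x : E2) : fderiv ℝ v x = cos (lf (-(2*π/3)) 0 x + 2*π) • lf (-(2*π/3)) 0
    + cos (lf (π/3) (-(π*√3/3)) x + 0) • lf (π/3) (-(π*√3/3))
    + cos (lf (π/3) (π*√3/3) x + 0) • lf (π/3) (π*√3/3) :=
  (((hS _ _ _ x).add (hS _ _ _ x)).add (hS _ _ _ x)).fderiv

lemma lap_v (x : E2) : fderiv ℝ (fun y => fderiv ℝ v y (e 0)) x (e 0)
      + fderiv ℝ (fun y => fderiv ℝ v y (e 1)) x (e 1) = - ((4*π^2/9) * v x) := by
  have h0 : (fun y => fderiv ℝ v y (e 0)) = fun y => cos (lf (-(2*π/3)) 0 y + 2*π) * (-(2*π/3))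
    + cos (lf (π/3) (-(π*√3/3)) y + 0) * (π/3)
    + cos (lf (π/3) (π*√3/3) y + 0) * (π/3) := by
    funext y
    rw [fderiv_v]
    show cos _ * lf _ _ (e 0) + cos _ * lf _ _ (e 0) + cos _ * lf _ _ (e 0) = _
    rw [lf_e0, lf_e0, lf_e0]
  have h1 : (fun y => fderiv ℝ v y (e 1)) = fun y => cos (lf (-(2*π/3)) 0 y + 2*π) * 0
    + cos (lf (π/3) (-(π*√3/3)) y + 0) * (-(π*√3/3))
    + cos (lf (π/3) (π*√3/3) y + 0) * (π*√3/3) := by
    funext y
    rw [fderiv_v]
    show cos _ * lf _ _ (e 1) + cos _ * lf _ _ (e 1) + cos _ * lf _ _ (e 1) = _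
    rw [lf_e1, lf_e1, lf_e1]
  have hd : ∀ k1 k2 k3 : ℝ, fderiv ℝ (fun y : E2 => cos (lf (-(2*π/3)) 0 y + 2*π) * k1
    + cos (lf (π/3) (-(π*√3/3)) y + 0) * k2
    + cos (lf (π/3) (π*√3/3) y + 0) * k3) x
    = k1 • (-sin (lf (-(2*π/3)) 0 x + 2*π) • lf (-(2*π/3)) 0)
      + k2 • (-sin (lf (π/3) (-(π*√3/3)) x + 0) • lf (π/3) (-(π*√3/3)))
      + k3 • (-sin (lf (π/3) (π*√3/3) x + 0) • lf (π/3) (π*√3/3)) := fun k1 k2 k3 =>
    ((((hC _ _ _ x).mul_const k1).add ((hC _ _ _ x).mul_const k2)).add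
      ((hC _ _ _ x).mul_const k3)).fderiv
  rw [h0, h1, hd, hd]
  show (_ * (_ * lf _ _ (e 0)) + _ * (_ * lf _ _ (e 0)) + _ * (_ * lf _ _ (e 0)))
    + (_ * (_ * lf _ _ (e 1)) + _ * (_ * lf _ _ (e 1)) + _ * (_ * lf _ _ (e 1))) = _
  rw [lf_e0, lf_e0, lf_e0, lf_e1, lf_e1, lf_e1]
  have h3 : √3 * √3 = 3 := Real.mul_self_sqrt (by norm_num)
  unfold v
  linear_combination (-(π^2/9) * (sin (lf (π/3) (-(π*√3/3)) x + 0) + sin (lf (π/3) (π*√3/3) x + 0))) * h3

/-- the truncated equilateral triangle -/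
def Om : Set E2 := {p | 1/4 < p 0 ∧ p 0 < 3 ∧ √3 * p 1 < p 0 ∧ -(√3 * p 1) < p 0}

lemma v_pos : ∀ x ∈ Om, 0 < v x := by
  rintro x ⟨h1, h2, h3, h4⟩
  have key : v x = 4 * (sin (π - π * x 0 / 3) * sin (π * (x 0 - √3 * x 1)/6)
      * sin (π * (x 0 + √3 * x 1)/6)) := by
    set B := π * (x 0 - √3 * x 1)/6 with hB
    set C := π * (x 0 + √3 * x 1)/6 with hC
    have e0 : π * x 0 / 3 = B + C := by rw [hB, hC]; ring
    have e1 : lf (-(2*π/3)) 0 x + 2*π = 2*π - 2*(B+C) := by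
      rw [lf_apply, ← e0]; ring
    have e2 : lf (π/3) (-(π*√3/3)) x + 0 = 2*B := by
      rw [lf_apply, hB]; ring
    have e3 : lf (π/3) (π*√3/3) x + 0 = 2*C := by
      rw [lf_apply, hC]; ring
    unfold v
    rw [e1, e2, e3, e0, Real.sin_pi_sub, Real.sin_two_pi_sub, Real.sin_two_mul, Real.sin_two_mul,
      Real.sin_two_mul, Real.sin_add, Real.cos_add]
    have hb := Real.sin_sq_add_cos_sq B
    have hc := Real.sin_sq_add_cos_sq C
    linear_combination (-2 * sin C * cos C) * hb + (-2 * sin B * cos B) * hc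
  rw [key]
  have hp := Real.pi_pos
  refine mul_pos (by norm_num) (mul_pos (mul_pos ?_ ?_) ?_)
  · apply Real.sin_pos_of_pos_of_lt_pi
    · nlinarith
    · nlinarith
  · apply Real.sin_pos_of_pos_of_lt_pi
    · have : 0 < x 0 - √3 * x 1 := by linarith
      positivity
    · have : x 0 - √3 * x 1 < 6 := by linarith
      nlinarith
  · apply Real.sin_pos_of_pos_of_lt_pi
    · have : 0 < x 0 + √3 * x 1 := by linarith
      positivity
    · have : x 0 + √3 * x 1 < 6 := by linarith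
      nlinarith

lemma cont_coord (i : Fin 2) : Continuous fun p : E2 => p i :=
  (EuclideanSpace.proj (𝕜 := ℝ) i).continuous

lemma isOpen_Om : IsOpen Om := by
  have h0 := cont_coord 0
  have h1 := cont_coord 1
  have : Om = {p : E2 | 1/4 < p 0} ∩ ({p : E2 | p 0 < 3} ∩ ({p : E2 | √3 * p 1 < p 0} ∩
      {p : E2 | -(√3 * p 1) < p 0})) := rfl
  rw [this]
  exact (isOpen_lt continuous_const h0).inter ((isOpen_lt h0 continuous_const).inter
    ((isOpen_lt (continuous_const.mul h1) h0).inter (isOpen_lt (continuous_const.mul h1).neg h0)))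

lemma convex_Om : Convex ℝ Om := by
  intro p hp q hq a b ha hb hab
  obtain ⟨p1, p2, p3, p4⟩ := hp
  obtain ⟨q1, q2, q3, q4⟩ := hq
  have e0 : (a • p + b • q) 0 = a * p 0 + b * q 0 := by simp
  have e1 : (a • p + b • q) 1 = a * p 1 + b * q 1 := by simp
  have hb' : b = 1 - a := by linarith
  have hconv : ∀ s t : ℝ, 0 < s → 0 < t → 0 < a * s + b * t := by
    intro s t hs ht
    rcases eq_or_lt_of_le ha with h | h
    · rw [← h] at hab ⊢
      have : b = 1 := by linarith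
      rw [this]; linarith
    · have := mul_pos h hs
      have := mul_nonneg hb ht.le
      linarith
  refine ⟨?_, ?_, ?_, ?_⟩
  · rw [e0]
    have := hconv (p 0 - 1/4) (q 0 - 1/4) (by linarith) (by linarith)
    nlinarith
  · rw [e0]
    have := hconv (3 - p 0) (3 - q 0) (by linarith) (by linarith)
    nlinarith
  · rw [e0, e1]
    have := hconv (p 0 - √3 * p 1) (q 0 - √3 * q 1) (by linarith) (by linarith)
    nlinarith
  · rw [e0, e1]
    have := hconv (p 0 + √3 * p 1) (q 0 + √3 * q 1) (by linarith) (by linarith)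
    nlinarith

lemma one_le_sqrt3 : (1:ℝ) ≤ √3 := by
  rw [show (1:ℝ) = √1 by simp]
  exact Real.sqrt_le_sqrt (by norm_num)

lemma bdd_coord {p : E2} (hp : p ∈ Om) : |p 0| ≤ 3 ∧ |p 1| ≤ 3 := by
  obtain ⟨p1, p2, p3, p4⟩ := hp
  refine ⟨abs_le.mpr ⟨by linarith, by linarith⟩, abs_le.mpr ⟨?_, ?_⟩⟩
  · by_contra hc
    push Not at hc
    nlinarith [one_le_sqrt3]
  · by_contra hc
    push Not at hc
    nlinarith [one_le_sqrt3]

lemma bounded_Om : Bornology.IsBounded Om := by
  refine (Metric.isBounded_closedBall (x := (0:E2)) (r := 5)).subset fun p hp => ?_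
  rw [mem_closedBall_zero_iff]
  obtain ⟨h0, h1⟩ := bdd_coord hp
  have h2 : ‖p‖^2 = (p 0)^2 + (p 1)^2 := by
    rw [EuclideanSpace.norm_sq_eq, Fin.sum_univ_two]
    simp
  have h3 : ‖p‖^2 ≤ 5^2 := by
    rw [h2]
    have := abs_le.mp h0
    have := abs_le.mp h1
    nlinarith
  exact (pow_le_pow_iff_left₀ (norm_nonneg _) (by norm_num) (by norm_num)).mp h3

lemma nonempty_Om : Om.Nonempty := by
  refine ⟨e 0, ?_, ?_, ?_, ?_⟩ <;> simp [e] <;> norm_num

/-- the measure preserving identification of the plane with the product -/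
noncomputable def P : ℝ × ℝ → E2 := fun z => !₂[z.1, z.2]

lemma P0 (z : ℝ × ℝ) : P z 0 = z.1 := rfl
lemma P1 (z : ℝ × ℝ) : P z 1 = z.2 := rfl

lemma mp_P : MeasurePreserving P volume volume :=
  (PiLp.volume_preserving_toLp (Fin 2)).comp (volume_preserving_finTwoArrow ℝ).symm

lemma me_P : MeasurableEmbedding P :=
  ((MeasurableEquiv.toLp 2 (Fin 2 → ℝ)).measurableEmbedding).comp
    (MeasurableEquiv.finTwoArrow (α := ℝ)).symm.measurableEmbedding

/-- Fubini over the truncated triangle -/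
lemma int_Om (g : ℝ → ℝ → ℝ) (hg : Continuous fun z : ℝ × ℝ => g z.1 z.2) :
    ∫ p in Om, g (p 0) (p 1) =
      ∫ x in (1/4:ℝ)..3, ∫ y in (-(x/√3))..(x/√3), g x y := by
  have hs3 : (0:ℝ) < √3 := by positivity
  have h1 : ∫ p in Om, g (p 0) (p 1) = ∫ z in P ⁻¹' Om, g z.1 z.2 := by
    have := mp_P.setIntegral_preimage_emb me_P (fun p => g (p 0) (p 1)) Om
    rw [← this]
    rfl
  have hm : MeasurableSet (P ⁻¹' Om) := me_P.measurable isOpen_Om.measurableSet
  have hint : IntegrableOn (fun z : ℝ × ℝ => g z.1 z.2) (P ⁻¹' Om) := by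
    have hK : IsCompact (Icc (-3:ℝ) 3 ×ˢ Icc (-3:ℝ) 3) := isCompact_Icc.prod isCompact_Icc
    refine (hg.continuousOn.integrableOn_compact hK).mono_set fun z hz => ?_
    obtain ⟨h0, h1⟩ := bdd_coord hz
    rw [P0] at h0
    rw [P1] at h1
    exact ⟨abs_le.mp h0, abs_le.mp h1⟩
  rw [h1, ← integral_indicator hm, Measure.volume_eq_prod, integral_prod]
  swap
  · rw [← Measure.volume_eq_prod]
    exact (integrable_indicator_iff hm).mpr hint
  rw [intervalIntegral.integral_of_le (by norm_num), integral_Ioc_eq_integral_Ioo,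
    ← integral_indicator measurableSet_Ioo]
  congr 1
  funext x
  by_cases hx : x ∈ Ioo (1/4:ℝ) 3
  · rw [indicator_of_mem hx]
    have hx0 : 0 < x / √3 := div_pos (by linarith [hx.1]) hs3
    rw [intervalIntegral.integral_of_le (by linarith), integral_Ioc_eq_integral_Ioo,
      ← integral_indicator measurableSet_Ioo]
    congr 1
    funext y
    have hiff : (x, y) ∈ P ⁻¹' Om ↔ y ∈ Ioo (-(x/√3)) (x/√3) := by
      constructor
      · rintro ⟨a, b, c, d⟩
        rw [P0, P1] at c d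
        simp only at c d
        refine ⟨?_, ?_⟩
        · rw [neg_lt, lt_div_iff₀ hs3]; linarith
        · rw [lt_div_iff₀ hs3]; linarith
      · rintro ⟨a, b⟩
        rw [neg_lt, lt_div_iff₀ hs3] at a
        rw [lt_div_iff₀ hs3] at b
        refine ⟨hx.1, hx.2, ?_, ?_⟩
        · rw [P0, P1]; simp only; linarith
        · rw [P0, P1]; simp only; linarith
    by_cases hy : y ∈ Ioo (-(x/√3)) (x/√3)
    · rw [indicator_of_mem hy, indicator_of_mem (hiff.mpr hy)]
    · rw [indicator_of_notMem hy, indicator_of_notMem (fun h => hy (hiff.mp h))]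
  · rw [indicator_of_notMem hx]
    have : ∀ y, (P ⁻¹' Om).indicator (fun z => g z.1 z.2) (x, y) = 0 := fun y =>
      indicator_of_notMem (fun h => hx ⟨h.1, h.2.1⟩) _
    simp only [this, integral_zero]

/-- antiderivative form -/
lemma int_poly (F f : ℝ → ℝ) (a b : ℝ) (hF : ∀ x, HasDerivAt F (f x) x) (hf : Continuous f) :
    ∫ x in a..b, f x = F b - F a :=
  intervalIntegral.integral_eq_sub_of_hasDerivAt (fun x _ => hF x) (hf.intervalIntegrable _ _)

/-- area -/
lemma area_Om : ∫ _p in Om, (1:ℝ) = (143/16) / √3 := by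
  have h := int_Om (fun _ _ => (1:ℝ)) continuous_const
  rw [h]
  have h1 : ∀ x : ℝ, ∫ _y in (-(x/√3))..(x/√3), (1:ℝ) = (2/√3) * x := by
    intro x
    rw [intervalIntegral.integral_const, smul_eq_mul]; ring
  simp only [h1]
  rw [int_poly (fun x => (1/√3) * x^2) (fun x => (2/√3) * x) _ _ (fun x => ?_) (by fun_prop)]
  · ring
  · have := (hasDerivAt_pow 2 x).const_mul (1/√3)
    refine this.congr_deriv ?_
    push_cast
    ring

lemma mom0_Om : ∫ p in Om, p 0 = (1727/96) / √3 := by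
  have h := int_Om (fun x _ => x) continuous_fst
  simp only at h
  rw [h]
  have h1 : ∀ x : ℝ, ∫ _y in (-(x/√3))..(x/√3), x = (2/√3) * x^2 := by
    intro x
    rw [intervalIntegral.integral_const, smul_eq_mul]; ring
  simp only [h1]
  rw [int_poly (fun x => (2/3/√3) * x^3) (fun x => (2/√3) * x^2) _ _ (fun x => ?_) (by fun_prop)]
  · ring
  · have := (hasDerivAt_pow 3 x).const_mul (2/3/√3)
    refine this.congr_deriv ?_
    push_cast
    ring

lemma mom1_Om : ∫ p in Om, p 1 = 0 := by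
  have h := int_Om (fun _ y => y) continuous_snd
  simp only at h
  rw [h]
  have h1 : ∀ x : ℝ, ∫ y in (-(x/√3))..(x/√3), y = 0 := by
    intro x
    rw [integral_id]; ring
  simp only [h1]
  simp

lemma inertia_Om : ∫ p in Om, ((p 0 - 157/78)^2 + (p 1)^2) = (263219/29952) / √3 := by
  have h := int_Om (fun x y => (x - 157/78)^2 + y^2) (by fun_prop)
  simp only at h
  rw [h]
  have hs : √3 * √3 = 3 := Real.mul_self_sqrt (by norm_num)
  have hs0 : √3 ≠ 0 := by positivity
  have h1 : ∀ x : ℝ, ∫ y in (-(x/√3))..(x/√3), ((x - 157/78)^2 + y^2)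
      = (1/√3) * (2 * x * (x - 157/78)^2 + 2/9 * x^3) := by
    intro x
    rw [int_poly (fun y => (x - 157/78)^2 * y + y^3/3) (fun y => (x - 157/78)^2 + y^2) _ _
      (fun y => ?_) (by fun_prop)]
    · field_simp
      ring_nf
      have e3 : √3^3 = 3 * √3 := by rw [pow_succ, pow_two, hs]
      have e2 : √3^2 = 3 := by rw [pow_two, hs]
      simp only [e3, e2]
      ring
    · have := ((hasDerivAt_id y).const_mul ((x - 157/78)^2)).add ((hasDerivAt_pow 3 y).div_const 3)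
      refine this.congr_deriv ?_
      push_cast
      ring
  simp only [h1]
  rw [int_poly (fun x => (1/√3) * (20/9/4 * x^4 - 4*(157/78)/3 * x^3 + (157/78)^2 * x^2))
    (fun x => (1/√3) * (2 * x * (x - 157/78)^2 + 2/9 * x^3)) _ _ (fun x => ?_) (by fun_prop)]
  · field_simp
    norm_num
  · have := ((((hasDerivAt_pow 4 x).const_mul (20/9/4)).sub
      ((hasDerivAt_pow 3 x).const_mul (4*(157/78)/3))).add
      ((hasDerivAt_pow 2 x).const_mul ((157/78)^2))).const_mul (1/√3)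
    refine this.congr_deriv ?_
    push_cast
    ring

end Pool.Agent.W747.FT
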