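import Mathlib

/-!
# Lower bound for the fundamental tone by a positive supersolution

If `v` is smooth and positive on the open set `Ω` and `-Δ v ≥ μ v` there, then
`μ ∫ u² ≤ ∫ |∇u|²` for all `C¹` functions `u` with compact support in `Ω`.
-/

set_option autoImplicit false

open MeasureTheory Set Filter Topology

namespace Pool.Agent.W747.FT

abbrev E2 := EuclideanSpace ℝ (Fin 2)

/-- standard basis vectors -/
noncomputable def e (i : Fin 2) : E2 := EuclideanSpace.single i 1

lemma norm_fderiv_sq_ge (L : E2 →L[ℝ] ℝ) : (L (e 0))^2 + (L (e 1))^2 ≤ ‖L‖^2 := by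
  set a := L (e 0) with ha
  set b := L (e 1) with hb
  set w : E2 := a • e 0 + b • e 1 with hw
  have h1 : L w = a^2 + b^2 := by
    rw [hw, map_add, map_smul, map_smul, ← ha, ← hb, smul_eq_mul, smul_eq_mul]; ring
  have h2 : ‖w‖^2 = a^2 + b^2 := by
    rw [EuclideanSpace.norm_sq_eq, Fin.sum_univ_two, hw]
    simp [e]
  have h3 : |L w| ≤ ‖L‖ * ‖w‖ := L.le_opNorm w
  have h4 : (L w)^2 ≤ (‖L‖ * ‖w‖)^2 := by
    rw [← sq_abs]
    exact pow_le_pow_left₀ (abs_nonneg _) h3 2
  rw [h1, mul_pow, h2] at h4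
  rcases eq_or_lt_of_le (show (0:ℝ) ≤ a^2 + b^2 by positivity) with h0 | h0
  · rw [← h0]; positivity
  · nlinarith

/-- pointwise Picone inequality -/
lemma picone {v u : E2 → ℝ} {x : E2} (hv : DifferentiableAt ℝ v x) (hu : DifferentiableAt ℝ u x)
    (hpos : 0 < v x) (i : Fin 2) :
    fderiv ℝ (fun y => (u y)^2 * (v y)⁻¹) x (e i) * fderiv ℝ v x (e i) ≤ (fderiv ℝ u x (e i))^2 := by
  have h1 : HasFDerivAt (fun y => (u y)^2 * (v y)⁻¹)
      ((u x)^2 • ((-(v x ^ 2)⁻¹) • fderiv ℝ v x) + (v x)⁻¹ • ((2 * u x) • fderiv ℝ u x)) x := by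
    have hu2 : HasFDerivAt (fun y => (u y)^2) ((2 * u x) • fderiv ℝ u x) x := by
      have := hu.hasFDerivAt.pow 2
      simpa using this
    have hv2 : HasFDerivAt (fun y => (v y)⁻¹) ((-(v x ^ 2)⁻¹) • fderiv ℝ v x) x :=
      (hasDerivAt_inv hpos.ne').comp_hasFDerivAt x hv.hasFDerivAt
    exact hu2.mul hv2
  rw [h1.fderiv]
  set p := fderiv ℝ u x (e i)
  set q := fderiv ℝ v x (e i)
  show ((u x)^2 * ((-(v x ^ 2)⁻¹) * q) + (v x)⁻¹ * ((2 * u x) * p)) * q ≤ p ^ 2
  have h2 : ((u x)^2 * ((-(v x ^ 2)⁻¹) * q) + (v x)⁻¹ * ((2 * u x) * p)) * q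
      = p^2 - (p - (u x / v x) * q)^2 := by
    field_simp
    ring
  rw [h2]
  nlinarith [sq_nonneg (p - (u x / v x) * q)]

variable {Ω : Set E2} {u v : E2 → ℝ} {μ : ℝ}

lemma tsupport_subset_of {f : E2 → ℝ} (h : ∀ x, u x = 0 → f x = 0) : tsupport f ⊆ tsupport u :=
  closure_mono fun x hx hux => hx (h x hux)

/-- Barta lower bound -/
theorem barta (hv : ContDiff ℝ 2 v) (hpos : ∀ x ∈ Ω, 0 < v x)
    (hlap : ∀ x ∈ Ω, fderiv ℝ (fun y => fderiv ℝ v y (e 0)) x (e 0)
      + fderiv ℝ (fun y => fderiv ℝ v y (e 1)) x (e 1) ≤ - (μ * v x))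
    (hu : ContDiff ℝ 1 u) (hc : HasCompactSupport u) (hs : tsupport u ⊆ Ω) :
    μ * ∫ x, (u x)^2 ≤ ∫ x, ‖fderiv ℝ u x‖^2 := by
  set f : E2 → ℝ := fun y => (u y)^2 * (v y)⁻¹ with hf
  have hfs : tsupport f ⊆ tsupport u := tsupport_subset_of fun x hx => by
    simp [hf, hx]
  have hfc : HasCompactSupport f := hc.mono' (subset_closure.trans hfs)
  have hfC : ContDiff ℝ 1 f := by
    rw [contDiff_iff_contDiffAt]
    intro x
    by_cases hx : x ∈ Ω
    · exact (hu.contDiffAt.pow 2).mul ((hv.of_le (by norm_num)).contDiffAt.inv (hpos x hx).ne')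
    · have h1 : f =ᶠ[𝓝 x] 0 := by
        rw [← notMem_tsupport_iff_eventuallyEq]
        exact fun h => hx (hs (hfs h))
      exact contDiffAt_const.congr_of_eventuallyEq h1
  have hfd : Differentiable ℝ f := hfC.differentiable (by norm_num)
  have hg : ∀ i, ContDiff ℝ 1 (fun y => fderiv ℝ v y (e i)) := fun i =>
    (hv.fderiv_right (m := 1) (by norm_num)).clm_apply contDiff_const
  have hfcont : ∀ i, Continuous fun y => fderiv ℝ f y (e i) := fun i =>
    (hfC.continuous_fderiv (by norm_num)).clm_apply continuous_const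
  have hucont : ∀ i, Continuous fun y => fderiv ℝ u y (e i) := fun i =>
    (hu.continuous_fderiv (by norm_num)).clm_apply continuous_const
  have hfds : ∀ i, HasCompactSupport fun y => fderiv ℝ f y (e i) := fun i =>
    (hfc.fderiv (𝕜 := ℝ)).comp_left (g := fun L : E2 →L[ℝ] ℝ => L (e i)) rfl
  have huds : ∀ i, HasCompactSupport fun y => fderiv ℝ u y (e i) := fun i =>
    (hc.fderiv (𝕜 := ℝ)).comp_left (g := fun L : E2 →L[ℝ] ℝ => L (e i)) rfl
  have int1 : ∀ i, Integrable (fun x => fderiv ℝ f x (e i) * fderiv ℝ v x (e i)) := fun i =>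
    ((hfcont i).mul (hg i).continuous).integrable_of_hasCompactSupport (hfds i).mul_right
  have int2 : ∀ i, Integrable (fun x => f x * fderiv ℝ (fun y => fderiv ℝ v y (e i)) x (e i)) :=
    fun i => (hfC.continuous.mul
      (((hg i).continuous_fderiv (by norm_num)).clm_apply continuous_const)).integrable_of_hasCompactSupport
        hfc.mul_right
  have int3 : ∀ i, Integrable (fun x => f x * fderiv ℝ v x (e i)) := fun i =>
    (hfC.continuous.mul (hg i).continuous).integrable_of_hasCompactSupport hfc.mul_right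
  have ibp : ∀ i, ∫ x, f x * fderiv ℝ (fun y => fderiv ℝ v y (e i)) x (e i)
      = - ∫ x, fderiv ℝ f x (e i) * fderiv ℝ v x (e i) := fun i =>
    integral_mul_fderiv_eq_neg_fderiv_mul_of_integrable (int1 i) (int2 i) (int3 i)
      (fun x _ => hfd x) (fun x _ => (hg i).differentiable (by norm_num) x)
  have intu : ∀ i, Integrable (fun x => (fderiv ℝ u x (e i))^2) := fun i => by
    have h1 : (fun x => (fderiv ℝ u x (e i))^2) = fun x => fderiv ℝ u x (e i) * fderiv ℝ u x (e i) := by
      funext x; ring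
    rw [h1]
    exact ((hucont i).mul (hucont i)).integrable_of_hasCompactSupport (huds i).mul_right
  have intn : Integrable (fun x => ‖fderiv ℝ u x‖^2) := by
    have h1 : (fun x => ‖fderiv ℝ u x‖^2) = fun x => ‖fderiv ℝ u x‖ * ‖fderiv ℝ u x‖ := by
      funext x; ring
    rw [h1]
    have hcf := hu.continuous_fderiv (by norm_num)
    refine (hcf.norm.mul hcf.norm).integrable_of_hasCompactSupport ?_
    exact ((hc.fderiv (𝕜 := ℝ)).norm).mul_right
  have intu2 : Integrable (fun x => (u x)^2) := by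
    have h1 : (fun x => (u x)^2) = fun x => u x * u x := by
      funext x; ring
    rw [h1]
    exact (hu.continuous.mul hu.continuous).integrable_of_hasCompactSupport hc.mul_right
  calc μ * ∫ x, (u x)^2 = ∫ x, μ * (u x)^2 := (integral_const_mul _ _).symm
    _ ≤ ∫ x, -(f x * fderiv ℝ (fun y => fderiv ℝ v y (e 0)) x (e 0)
          + f x * fderiv ℝ (fun y => fderiv ℝ v y (e 1)) x (e 1)) := by
        refine integral_mono (intu2.const_mul μ) ((int2 0).add (int2 1)).neg fun x => ?_
        show μ * (u x)^2 ≤ -(f x * _ + f x * _)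
        by_cases hx : x ∈ Ω
        · have h1 := hlap x hx
          have h2 := hpos x hx
          have h3 : (u x)^2 = f x * v x := by
            simp only [hf]; field_simp
          have h4 : 0 ≤ f x := by
            simp only [hf]; positivity
          rw [h3]
          nlinarith
        · have h1 : u x = 0 := image_eq_zero_of_notMem_tsupport fun h => hx (hs h)
          simp [hf, h1]
    _ = ∫ x, (fderiv ℝ f x (e 0) * fderiv ℝ v x (e 0)
          + fderiv ℝ f x (e 1) * fderiv ℝ v x (e 1)) := by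
        rw [integral_neg, integral_add (int2 0) (int2 1), integral_add (int1 0) (int1 1),
          ibp 0, ibp 1]
        ring
    _ ≤ ∫ x, ((fderiv ℝ u x (e 0))^2 + (fderiv ℝ u x (e 1))^2) := by
        refine integral_mono ((int1 0).add (int1 1)) ((intu 0).add (intu 1)) fun x => ?_
        show _ + _ ≤ _ + _
        by_cases hx : x ∈ Ω
        · exact add_le_add
            (picone ((hv.differentiable (by norm_num)) x) ((hu.differentiable (by norm_num)) x)
              (hpos x hx) 0)
            (picone ((hv.differentiable (by norm_num)) x) ((hu.differentiable (by norm_num)) x)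
              (hpos x hx) 1)
        · have h1 : f =ᶠ[𝓝 x] 0 := by
            rw [← notMem_tsupport_iff_eventuallyEq]
            exact fun h => hx (hs (hfs h))
          have h2 : fderiv ℝ f x = 0 := by
            rw [h1.fderiv_eq]; simp
          rw [h2]
          simp
          positivity
    _ ≤ ∫ x, ‖fderiv ℝ u x‖^2 :=
        integral_mono ((intu 0).add (intu 1)) intn fun x => norm_fderiv_sq_ge _

end Pool.Agent.W747.FT
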